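import Pool.Agent.Work.MP_9999b5_sp.B_EX2
import Pool.Agent.Work.MP_9999b5_sp.B_SHF
import Pool.Agent.Work.MP_9999b5_sp.B_ZE2

/-! # The inequality (R) of the full Manickam-Miklos-Singhi proof, strict version (helper21)

`W T (k+T) φ` (or `WP`) gives, for `|C| = 2k+T`, `x(C) > 0`:
`φ (k+T) (N + bad - pp) ≤ (k+T) (N - hvy - pp) + T (hvy - bad)`; for `x(C) = 0`, `x` injective, there is a loss term. -/

set_option autoImplicit false

namespace Pool.Agent.Work.MP_9999b5_sp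

open Finset

/-- general averaging over one element of `A` -/
theorem RFW_gen (k T : ℕ) (φ : ℝ) (hWP : WP T (k + T) φ) {ι : Type} [DecidableEq ι]
    (A : Finset ι) (hA : A.card = k + T) (P Q : Finset ι → Prop) [DecidablePred P]
    [DecidablePred Q] (y : ι → ι → ℝ) (hy : ∀ z ∈ A, 0 ≤ ∑ i ∈ A, y z i)
    (hPQ : ∀ z ∈ A, ∀ K ∈ A.powersetCard T, 0 ≤ ∑ i ∈ K, y z i → P K ∨ (z ∈ K ∧ Q K)) :
    φ * (k + T) * ((k + T).choose T : ℝ) ≤
      (k + T) * (((A.powersetCard T).filter P).card : ℝ) +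
        T * (((A.powersetCard T).filter Q).card : ℝ) := by
  have key : ∀ z ∈ A, φ * ((k + T).choose T : ℝ) ≤
      ((((A.powersetCard T).filter P).card +
        (((A.powersetCard T).filter Q).filter (fun K => z ∈ K)).card : ℕ) : ℝ) := by
    intro z hz
    refine (hWP ι A (y z) hA (hy z hz)).trans ?_
    apply Nat.cast_le.2
    refine (Finset.card_le_card ?_).trans (Finset.card_union_le _ _)
    intro K hK
    obtain ⟨hK1, hK2⟩ := Finset.mem_filter.1 hK
    rw [Finset.mem_union]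
    rcases hPQ z hz K hK1 hK2 with h | ⟨h1, h2⟩
    · exact Or.inl (Finset.mem_filter.2 ⟨hK1, h⟩)
    · exact Or.inr (Finset.mem_filter.2 ⟨Finset.mem_filter.2 ⟨hK1, h2⟩, h1⟩)
  have hs := Finset.sum_le_sum key
  rw [Finset.sum_const, nsmul_eq_mul, hA, ← Nat.cast_sum, Finset.sum_add_distrib] at hs
  have c2 : ∑ z ∈ A, (((A.powersetCard T).filter Q).filter (fun K => z ∈ K)).card =
      T * ((A.powersetCard T).filter Q).card := by
    apply SHF_count A _ (fun z K => z ∈ K) T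
    intro K hK
    obtain ⟨hK1, hK2⟩ := Finset.mem_powersetCard.1 (Finset.mem_filter.1 hK).1
    have : A.filter (fun z => z ∈ K) = K := by
      ext i
      rw [Finset.mem_filter]
      exact ⟨fun h => h.2, fun h => ⟨hK1 h, h⟩⟩
    rw [this, hK2]
  rw [c2, Finset.sum_const, smul_eq_mul, hA] at hs
  push_cast at hs
  linarith

/-- a positive threshold `c` -/
theorem RFW_A (k T : ℕ) (φ : ℝ) (hk : 1 ≤ k) (hT : 1 ≤ T) (hWP : WP T (k + T) φ) {ι : Type}
    [DecidableEq ι] (A : Finset ι) (x : ι → ℝ) (hA : A.card = k + T) (c : ℝ) (hc : 0 < c) :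
    φ * (k + T) * ((k + T).choose T : ℝ) ≤
      (k + T) * (((A.powersetCard T).filter (fun K => ∑ i ∈ K, x i < c)).card : ℝ) +
        T * (((A.powersetCard T).filter (fun K => c ≤ ∑ i ∈ K, x i ∧
          ∑ i ∈ K, x i < ∑ i ∈ A, x i)).card : ℝ) := by
  have hT0 : (0 : ℝ) < T := by exact_mod_cast hT
  have hk0 : (0 : ℝ) < k := by exact_mod_cast hk
  obtain ⟨s, hs⟩ : ∃ s : ℝ, s = max 0 (∑ i ∈ A, x i - c / 2 * (k + T) / T) := ⟨_, rfl⟩
  have hyK : ∀ (z : ι) (K : Finset ι),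
      ∑ i ∈ K, (c / 2 / T - x i + (if i = z then s else 0)) =
      (K.card : ℝ) * (c / 2 / T) - ∑ i ∈ K, x i + (if z ∈ K then s else 0) := by
    intro z K
    rw [Finset.sum_add_distrib, Finset.sum_sub_distrib, Finset.sum_const, nsmul_eq_mul,
      Finset.sum_ite_eq']
  apply RFW_gen k T φ hWP A hA _ _ (fun z i => c / 2 / T - x i + (if i = z then s else 0))
  · intro z hz
    rw [hyK z A, if_pos hz, hA]
    have h1 : ∑ i ∈ A, x i - c / 2 * (k + T) / T ≤ s := by
      rw [hs]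
      exact le_max_right _ _
    have h2 : ((k + T : ℕ) : ℝ) * (c / 2 / T) = c / 2 * (k + T) / T := by
      push_cast
      ring
    rw [h2]
    linarith
  · intro z hz K hK h
    obtain ⟨_, hK3⟩ := Finset.mem_powersetCard.1 hK
    rw [hyK z K, hK3] at h
    have h2 : (T : ℝ) * (c / 2 / T) = c / 2 := by field_simp
    rw [h2] at h
    rcases lt_or_ge (∑ i ∈ K, x i) c with h3 | h3
    · exact Or.inl h3
    · right
      by_cases hzK : z ∈ K
      · refine ⟨hzK, h3, ?_⟩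
        rw [if_pos hzK] at h
        rcases le_total 0 (∑ i ∈ A, x i - c / 2 * (k + T) / T) with h4 | h4
        · rw [max_eq_right h4] at hs
          have h5 : c / 2 * (k + T) / T = c / 2 + c / 2 * k / T := by
            field_simp
            ring
          have h6 : 0 < c / 2 * k / T := by positivity
          linarith
        · rw [max_eq_left h4] at hs
          linarith
      · rw [if_neg hzK] at h
        linarith

/-- the pairs with second sum `≤ 0`, first sum positive, total `≤ 0` -/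
noncomputable def RFW_M {ι : Type} [DecidableEq ι] (C : Finset ι) (x : ι → ℝ) (k : ℕ) : ℕ :=
  ((MP_9999b5_mr.prs C k).filter (fun p => ∑ i ∈ p.2, x i ≤ 0 ∧ 0 < ∑ i ∈ p.1, x i ∧
    ∑ i ∈ p.1, x i + ∑ i ∈ p.2, x i ≤ 0)).card

lemma RFW_split {ι : Type} [DecidableEq ι] (C : Finset ι) (x : ι → ℝ) (k : ℕ) :
    EX2_L C x k = MP_9999b5_mr.bad C x k + (EXG_N C x k).card + RFW_M C x k := by
  unfold EX2_L MP_9999b5_mr.bad EXG_N RFW_M
  rw [← card_union_of_disjoint, ← card_union_of_disjoint]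
  · congr 1
    ext p
    simp only [mem_union, mem_filter]
    constructor
    · rintro ⟨hp, h⟩
      rcases lt_or_ge 0 (∑ i ∈ p.1, x i) with ha | ha
      · rcases lt_or_ge 0 (∑ i ∈ p.1, x i + ∑ i ∈ p.2, x i) with hb | hb
        · exact Or.inl (Or.inr ⟨hp, ha, h, hb⟩)
        · exact Or.inr ⟨hp, h, ha, hb⟩
      · exact Or.inl (Or.inl ⟨hp, ha, h⟩)
    · rintro ((⟨hp, _, h⟩ | ⟨hp, _, h, _⟩) | ⟨hp, h, _, _⟩)
      · exact ⟨hp, h⟩
      · exact ⟨hp, h⟩
      · exact ⟨hp, h⟩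
  · rw [disjoint_union_left, disjoint_filter, disjoint_filter]
    constructor
    · rintro p _ ⟨h1, _⟩ ⟨_, h2, _⟩
      linarith
    · rintro p _ ⟨_, _, h1⟩ ⟨_, _, h2⟩
      linarith
  · rw [disjoint_filter]
    rintro p _ ⟨h1, _⟩ ⟨h2, _, _⟩
    linarith

lemma RFW_two {ι : Type} [DecidableEq ι] (C : Finset ι) (x : ι → ℝ) (k : ℕ) :
    2 * RFW_M C x k + MP_9999b5_mr.bad C x k = MP_9999b5_mr.hvy C x k := by
  have h1 := RFW_split C x k
  have h2 := EX2_two C x k
  have h3 := EXG_count C x k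
  omega

/-- summation over the second set `B`; `E` is a loss term -/
theorem RFW_sum {ι : Type} [DecidableEq ι] (k T : ℕ) (φ : ℝ) (C : Finset ι) (x : ι → ℝ)
    (hC : C.card = 2 * k + T) (e : Finset ι → ℝ)
    (h : ∀ B ∈ C.powersetCard k, ∑ i ∈ B, x i ≤ 0 →
      φ * (k + T) * ((k + T).choose T : ℝ) ≤
      (k + T) * ((((C \ B).powersetCard T).filter
        (fun K => ∑ i ∈ K, x i < ∑ i ∈ C, x i)).card : ℝ) +
        T * ((((C \ B).powersetCard T).filter (fun K => ∑ i ∈ C, x i ≤ ∑ i ∈ K, x i ∧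
          ∑ i ∈ K, x i < ∑ i ∈ C \ B, x i)).card : ℝ) + e B) :
    φ * (k + T) * (EX2_L C x k : ℝ) ≤ (k + T) * ((EXG_N C x k).card : ℝ) +
      T * (RFW_M C x k : ℝ) +
        ∑ B ∈ (C.powersetCard k).filter (fun B => ∑ i ∈ B, x i ≤ 0), e B := by
  have hL : (EX2_L C x k : ℝ) = ∑ B ∈ C.powersetCard k,
      ((((C \ B).powersetCard k).filter (fun _ => ∑ i ∈ B, x i ≤ 0)).card : ℝ) := by
    unfold EX2_L
    rw [EX2_fib C k (fun _ B => ∑ i ∈ B, x i ≤ 0), Nat.cast_sum]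
  have hN : ((EXG_N C x k).card : ℝ) = ∑ B ∈ C.powersetCard k,
      ((((C \ B).powersetCard k).filter (fun A => 0 < ∑ i ∈ A, x i ∧ ∑ i ∈ B, x i ≤ 0 ∧
        0 < ∑ i ∈ A, x i + ∑ i ∈ B, x i)).card : ℝ) := by
    unfold EXG_N
    rw [EX2_fib C k (fun A B => 0 < ∑ i ∈ A, x i ∧ ∑ i ∈ B, x i ≤ 0 ∧
        0 < ∑ i ∈ A, x i + ∑ i ∈ B, x i), Nat.cast_sum]
  have hM : (RFW_M C x k : ℝ) = ∑ B ∈ C.powersetCard k,
      ((((C \ B).powersetCard k).filter (fun A => ∑ i ∈ B, x i ≤ 0 ∧ 0 < ∑ i ∈ A, x i ∧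
        ∑ i ∈ A, x i + ∑ i ∈ B, x i ≤ 0)).card : ℝ) := by
    unfold RFW_M
    rw [EX2_fib C k (fun A B => ∑ i ∈ B, x i ≤ 0 ∧ 0 < ∑ i ∈ A, x i ∧
        ∑ i ∈ A, x i + ∑ i ∈ B, x i ≤ 0), Nat.cast_sum]
  rw [hL, hN, hM, Finset.mul_sum, Finset.mul_sum, Finset.mul_sum, sum_filter,
    ← Finset.sum_add_distrib, ← Finset.sum_add_distrib]
  refine Finset.sum_le_sum ?_
  intro B hB
  obtain ⟨hB1, hB2⟩ := mem_powersetCard.1 hB
  have sC : ∑ i ∈ C \ B, x i + ∑ i ∈ B, x i = ∑ i ∈ C, x i := sum_sdiff hB1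
  by_cases hb : ∑ i ∈ B, x i ≤ 0
  · have hA : (C \ B).card = k + T := by
      rw [card_sdiff_of_subset hB1]
      omega
    rw [if_pos hb]
    have h1 := h B hB hb
    rw [EX2_comp (C \ B) k T hA (fun K => ∑ i ∈ K, x i < ∑ i ∈ C, x i),
      EX2_comp (C \ B) k T hA (fun K => ∑ i ∈ C, x i ≤ ∑ i ∈ K, x i ∧
          ∑ i ∈ K, x i < ∑ i ∈ C \ B, x i)] at h1
    have e1 : (((C \ B).powersetCard k).filter (fun _ => ∑ i ∈ B, x i ≤ 0)).card =
        (k + T).choose T := by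
      rw [filter_true_of_mem (fun _ _ => hb), card_powersetCard, hA]
      rw [Nat.choose_symm_add]
    have e2 : ((C \ B).powersetCard k).filter (fun A => 0 < ∑ i ∈ A, x i ∧ ∑ i ∈ B, x i ≤ 0 ∧
        0 < ∑ i ∈ A, x i + ∑ i ∈ B, x i) =
        ((C \ B).powersetCard k).filter
          (fun A => ∑ i ∈ (C \ B) \ A, x i < ∑ i ∈ C, x i) := by
      apply filter_congr
      intro A hA'
      have sD : ∑ i ∈ (C \ B) \ A, x i + ∑ i ∈ A, x i = ∑ i ∈ C \ B, x i :=
        sum_sdiff (mem_powersetCard.1 hA').1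
      constructor
      · intro h
        linarith [h.2.2]
      · intro h
        exact ⟨by linarith, hb, by linarith⟩
    have e3 : ((C \ B).powersetCard k).filter (fun A => ∑ i ∈ B, x i ≤ 0 ∧ 0 < ∑ i ∈ A, x i ∧
        ∑ i ∈ A, x i + ∑ i ∈ B, x i ≤ 0) =
        ((C \ B).powersetCard k).filter
          (fun A => ∑ i ∈ C, x i ≤ ∑ i ∈ (C \ B) \ A, x i ∧
          ∑ i ∈ (C \ B) \ A, x i < ∑ i ∈ C \ B, x i) := by
      apply filter_congr
      intro A hA'
      have sD : ∑ i ∈ (C \ B) \ A, x i + ∑ i ∈ A, x i = ∑ i ∈ C \ B, x i :=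
        sum_sdiff (mem_powersetCard.1 hA').1
      constructor
      · intro h
        exact ⟨by linarith [h.2.2], by linarith [h.2.1]⟩
      · intro h
        exact ⟨hb, by linarith [h.2], by linarith [h.1]⟩
    rw [e1, e2, e3]
    exact h1
  · rw [if_neg hb]
    have e1 : ((C \ B).powersetCard k).filter (fun _ => ∑ i ∈ B, x i ≤ 0) = ∅ :=
      filter_false_of_mem (fun _ _ => hb)
    have e2 : ((C \ B).powersetCard k).filter (fun A => 0 < ∑ i ∈ A, x i ∧ ∑ i ∈ B, x i ≤ 0 ∧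
        0 < ∑ i ∈ A, x i + ∑ i ∈ B, x i) = ∅ :=
      filter_false_of_mem (fun _ _ h => hb h.2.1)
    have e3 : ((C \ B).powersetCard k).filter (fun A => ∑ i ∈ B, x i ≤ 0 ∧ 0 < ∑ i ∈ A, x i ∧
        ∑ i ∈ A, x i + ∑ i ∈ B, x i ≤ 0) = ∅ :=
      filter_false_of_mem (fun _ _ h => hb h.1)
    rw [e1, e2, e3, card_empty]
    simp

/-- (R) for `x(C) > 0`, no loss. -/
theorem RFW_pos (k T : ℕ) (φ : ℝ) (hk : 1 ≤ k) (hT : 1 ≤ T) (hWP : WP T (k + T) φ) {ι : Type}
    [DecidableEq ι] (C : Finset ι) (x : ι → ℝ) (hC : C.card = 2 * k + T)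
    (hc : 0 < ∑ i ∈ C, x i) :
    φ * (k + T) * (((MP_9999b5_mr.prs C k).card : ℝ) + (MP_9999b5_mr.bad C x k : ℝ) -
      (pp C x k : ℝ)) ≤
    (k + T) * (((MP_9999b5_mr.prs C k).card : ℝ) - (MP_9999b5_mr.hvy C x k : ℝ) -
      (pp C x k : ℝ)) +
    T * ((MP_9999b5_mr.hvy C x k : ℝ) - (MP_9999b5_mr.bad C x k : ℝ)) := by
  have h1 := RFW_sum k T φ C x hC (fun _ => 0) (by
    intro B hB _
    obtain ⟨hB1, hB2⟩ := mem_powersetCard.1 hB
    have hA : (C \ B).card = k + T := by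
      rw [card_sdiff_of_subset hB1]
      omega
    have := RFW_A k T φ hk hT hWP (C \ B) x hA (∑ i ∈ C, x i) hc
    linarith)
  rw [sum_const_zero, add_zero] at h1
  have h3 : 2 * (EX2_L C x k : ℝ) + (pp C x k : ℝ) =
      ((MP_9999b5_mr.prs C k).card : ℝ) + (MP_9999b5_mr.bad C x k : ℝ) := by
    exact_mod_cast EX2_two C x k
  have h4 : 2 * ((EXG_N C x k).card : ℝ) + (pp C x k : ℝ) + (MP_9999b5_mr.hvy C x k : ℝ) =
      ((MP_9999b5_mr.prs C k).card : ℝ) := by
    exact_mod_cast EXG_count C x k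
  have h5 : 2 * (RFW_M C x k : ℝ) + (MP_9999b5_mr.bad C x k : ℝ) =
      (MP_9999b5_mr.hvy C x k : ℝ) := by
    exact_mod_cast RFW_two C x k
  have e1 : ((MP_9999b5_mr.prs C k).card : ℝ) + (MP_9999b5_mr.bad C x k : ℝ) -
      (pp C x k : ℝ) = 2 * (EX2_L C x k : ℝ) := by linarith
  have e2 : ((MP_9999b5_mr.prs C k).card : ℝ) - (MP_9999b5_mr.hvy C x k : ℝ) -
      (pp C x k : ℝ) = 2 * ((EXG_N C x k).card : ℝ) := by linarith
  have e3 : (MP_9999b5_mr.hvy C x k : ℝ) - (MP_9999b5_mr.bad C x k : ℝ) =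
      2 * (RFW_M C x k : ℝ) := by linarith
  rw [e1, e2, e3]
  linarith


/-! ### total zero -/

/-- a small `ε` avoiding finitely many values -/
lemma RFZ_eps (F : Finset ℝ) (d : ℝ) (hd : 0 < d) : ∃ e : ℝ, 0 < e ∧ e < d ∧ e ∉ F := by
  obtain ⟨e, he, hF⟩ := (Set.Ioo_infinite hd).exists_notMem_finset F
  exact ⟨e, he.1, he.2, hF⟩

/-- one pair `(z, v)` -/
theorem RFZ_one (k T : ℕ) (φ : ℝ) (hW : Pool.Agent.Work.MaxSums.W T (k + T) φ)
    {ι : Type} [DecidableEq ι] (A : Finset ι) (x : ι → ℝ) (hA : A.card = k + T)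
    (hx : Set.InjOn x A) (hs : 0 < ∑ i ∈ A, x i) (z v : ι) (hz : z ∈ A) (hv : v ∈ A)
    (hzv : z ≠ v) :
    φ * ((k + T).choose T : ℝ) ≤
      ((((A.powersetCard T).filter (fun K => ∑ i ∈ K, x i < 0)).card +
        (((A.powersetCard T).filter (fun K => 0 ≤ ∑ i ∈ K, x i ∧
          ∑ i ∈ K, x i < ∑ i ∈ A, x i)).filter (fun K => z ∈ K)).card +
        ((((A.powersetCard T).filter (fun K => ∑ i ∈ K, x i = 0)).filter
          (fun K => z ∉ K)).filter (fun K => v ∈ K)).card : ℕ) : ℝ) := by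
  obtain ⟨s, hsd⟩ : ∃ s, s = ∑ i ∈ A, x i := ⟨_, rfl⟩
  rw [← hsd] at hs ⊢
  obtain ⟨η, hη, hsm⟩ := SHF_small (A.powersetCard T) (fun K => ∑ i ∈ K, x i) 0 1
  obtain ⟨e, he0, hed, heF⟩ := RFZ_eps
    ((A.image (fun j => s + x j - x z)) ∪ (A.image (fun j => x v - x j)) ∪
      {(s + x v - x z) / 2}) (min s η) (lt_min hs hη)
  have hes : e < s := lt_of_lt_of_le hed (min_le_left _ _)
  have heη : e < η := lt_of_lt_of_le hed (min_le_right _ _)
  rw [mem_union, mem_union, mem_image, mem_image, mem_singleton] at heF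
  push Not at heF
  obtain ⟨⟨hF1, hF2⟩, hF3⟩ := heF
  have hyK : ∀ K : Finset ι, ∑ i ∈ K, (-x i + (if i = z then s - e else 0) +
      (if i = v then e else 0)) =
        -(∑ i ∈ K, x i) + (if z ∈ K then s - e else 0) + (if v ∈ K then e else 0) := by
    intro K
    rw [Finset.sum_add_distrib, Finset.sum_add_distrib, Finset.sum_neg_distrib,
      Finset.sum_ite_eq', Finset.sum_ite_eq']
  have hinj : Set.InjOn (fun i => -x i + (if i = z then s - e else 0) +
      (if i = v then e else 0)) A := by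
    intro i hi j hj hij
    simp only at hij
    have hi' : i ∈ A := hi
    have hj' : j ∈ A := hj
    by_contra hne
    by_cases h1 : i = z
    · have h2 : j ≠ z := fun h => hne (h1.trans h.symm)
      have h3 : i ≠ v := fun h => hzv (h1.symm.trans h)
      rw [if_pos h1, if_neg h3, if_neg h2] at hij
      by_cases h4 : j = v
      · rw [if_pos h4, h1, h4] at hij
        apply hF3
        linarith
      · rw [if_neg h4, h1] at hij
        apply hF1 j hj'
        linarith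
    · rw [if_neg h1] at hij
      by_cases h2 : j = z
      · have h3 : j ≠ v := fun h => hzv (h2.symm.trans h)
        rw [if_pos h2, if_neg h3] at hij
        by_cases h4 : i = v
        · rw [if_pos h4, h2, h4] at hij
          apply hF3
          linarith
        · rw [if_neg h4, h2] at hij
          apply hF1 i hi'
          linarith
      · rw [if_neg h2] at hij
        by_cases h3 : i = v
        · have h4 : j ≠ v := fun h => hne (h3.trans h.symm)
          rw [if_pos h3, if_neg h4, h3] at hij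
          apply hF2 j hj'
          linarith
        · rw [if_neg h3] at hij
          by_cases h4 : j = v
          · rw [if_pos h4, h4] at hij
            apply hF2 i hi'
            linarith
          · rw [if_neg h4] at hij
            exact hne (hx hi hj (by linarith))
  have h1 := hW ι A (fun i => -x i + (if i = z then s - e else 0) +
      (if i = v then e else 0)) hA hinj (by
    rw [hyK A, if_pos hz, if_pos hv, ← hsd]
    linarith)
  refine h1.trans ?_
  apply Nat.cast_le.2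
  refine (Finset.card_le_card ?_).trans ((Finset.card_union_le _ _).trans
    (Nat.add_le_add_right (Finset.card_union_le _ _) _))
  intro K hK
  obtain ⟨hK1, hK2⟩ := Finset.mem_filter.1 hK
  rw [hyK K] at hK2
  rw [Finset.mem_union, Finset.mem_union]
  rcases lt_or_ge (∑ i ∈ K, x i) 0 with h3 | h3
  · exact Or.inl (Or.inl (Finset.mem_filter.2 ⟨hK1, h3⟩))
  · by_cases hzK : z ∈ K
    · refine Or.inl (Or.inr (Finset.mem_filter.2 ⟨Finset.mem_filter.2 ⟨hK1, h3, ?_⟩, hzK⟩))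
      rw [if_pos hzK] at hK2
      by_cases hvK : v ∈ K
      · rw [if_pos hvK] at hK2
        linarith
      · rw [if_neg hvK] at hK2
        linarith
    · rw [if_neg hzK] at hK2
      by_cases hvK : v ∈ K
      · rw [if_pos hvK] at hK2
        have h4 : ∑ i ∈ K, x i ≤ 0 := by
          apply hsm K hK1
          push_cast
          linarith
        exact Or.inr (Finset.mem_filter.2 ⟨Finset.mem_filter.2 ⟨Finset.mem_filter.2
          ⟨hK1, le_antisymm h4 h3⟩, hzK⟩, hvK⟩)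
      · rw [if_neg hvK] at hK2
        linarith

/-- the average over `(z, v)` -/
theorem RFZ_A (k T : ℕ) (φ : ℝ) (hk : 1 ≤ k) (hT : 1 ≤ T)
    (hW : Pool.Agent.Work.MaxSums.W T (k + T) φ)
    {ι : Type} [DecidableEq ι] (A : Finset ι) (x : ι → ℝ) (hA : A.card = k + T)
    (hx : Set.InjOn x A) (hs : 0 < ∑ i ∈ A, x i) :
    (k + T - 1 : ℝ) * (φ * (k + T) * ((k + T).choose T : ℝ)) ≤
      (k + T - 1 : ℝ) * ((k + T) *
        (((A.powersetCard T).filter (fun K => ∑ i ∈ K, x i < 0)).card : ℝ) +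
        T * (((A.powersetCard T).filter (fun K => 0 ≤ ∑ i ∈ K, x i ∧
          ∑ i ∈ K, x i < ∑ i ∈ A, x i)).card : ℝ)) +
        k * T * (((A.powersetCard T).filter (fun K => ∑ i ∈ K, x i = 0)).card : ℝ) := by
  obtain ⟨F1, hF1⟩ : ∃ F, F = (A.powersetCard T).filter (fun K => ∑ i ∈ K, x i < 0) :=
    ⟨_, rfl⟩
  obtain ⟨F2, hF2⟩ : ∃ F, F = (A.powersetCard T).filter (fun K => 0 ≤ ∑ i ∈ K, x i ∧
    ∑ i ∈ K, x i < ∑ i ∈ A, x i) := ⟨_, rfl⟩
  obtain ⟨F3, hF3⟩ : ∃ F, F = (A.powersetCard T).filter (fun K => ∑ i ∈ K, x i = 0) :=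
    ⟨_, rfl⟩
  have hc : ((k + T - 1 : ℕ) : ℝ) = (k : ℝ) + T - 1 := by
    rw [Nat.cast_sub (by omega)]
    push_cast
    ring
  have key : ∀ z ∈ A, ((k + T - 1 : ℕ) : ℝ) * (φ * ((k + T).choose T : ℝ)) ≤
      (((k + T - 1) * F1.card + (k + T - 1) * (F2.filter (fun K => z ∈ K)).card +
        T * (F3.filter (fun K => z ∉ K)).card : ℕ) : ℝ) := by
    intro z hz
    have h1 : ∀ v ∈ A.erase z, φ * ((k + T).choose T : ℝ) ≤
      ((F1.card + (F2.filter (fun K => z ∈ K)).card +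
        ((F3.filter (fun K => z ∉ K)).filter (fun K => v ∈ K)).card : ℕ) : ℝ) := by
      intro v hv
      rw [mem_erase] at hv
      rw [hF1, hF2, hF3]
      exact RFZ_one k T φ hW A x hA hx hs z v hz hv.2 (Ne.symm hv.1)
    have h2 := Finset.sum_le_sum h1
    rw [Finset.sum_const, nsmul_eq_mul, card_erase_of_mem hz, hA, ← Nat.cast_sum,
      Finset.sum_add_distrib, Finset.sum_const, smul_eq_mul, card_erase_of_mem hz, hA] at h2
    have c2 : ∑ v ∈ A.erase z, ((F3.filter (fun K => z ∉ K)).filter (fun K => v ∈ K)).card =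
        T * (F3.filter (fun K => z ∉ K)).card := by
      apply SHF_count (A.erase z) _ (fun v K => v ∈ K) T
      intro K hK
      obtain ⟨hK0, hzK⟩ := Finset.mem_filter.1 hK
      rw [hF3] at hK0
      obtain ⟨hK1, hK2⟩ := Finset.mem_powersetCard.1 (Finset.mem_filter.1 hK0).1
      have : (A.erase z).filter (fun v => v ∈ K) = K := by
        ext i
        rw [Finset.mem_filter, mem_erase]
        refine ⟨fun h => h.2, fun h => ⟨⟨fun h' => hzK (h' ▸ h), hK1 h⟩, h⟩⟩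
      rw [this, hK2]
    rw [c2] at h2
    refine h2.trans (le_of_eq ?_)
    push_cast
    ring
  have hs2 := Finset.sum_le_sum key
  rw [Finset.sum_const, nsmul_eq_mul, hA, ← Nat.cast_sum, Finset.sum_add_distrib,
    Finset.sum_add_distrib, Finset.sum_const, smul_eq_mul, hA, ← Finset.mul_sum,
    ← Finset.mul_sum] at hs2
  have c2 : ∑ z ∈ A, (F2.filter (fun K => z ∈ K)).card = T * F2.card := by
    apply SHF_count A F2 (fun z K => z ∈ K) T
    intro K hK
    rw [hF2] at hK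
    obtain ⟨hK1, hK2⟩ := Finset.mem_powersetCard.1 (Finset.mem_filter.1 hK).1
    have : A.filter (fun z => z ∈ K) = K := by
      ext i
      rw [Finset.mem_filter]
      exact ⟨fun h => h.2, fun h => ⟨hK1 h, h⟩⟩
    rw [this, hK2]
  have c3 : ∑ z ∈ A, (F3.filter (fun K => z ∉ K)).card = k * F3.card := by
    apply SHF_count A F3 (fun z K => z ∉ K) k
    intro K hK
    rw [hF3] at hK
    obtain ⟨hK1, hK2⟩ := Finset.mem_powersetCard.1 (Finset.mem_filter.1 hK).1
    have : A.filter (fun z => z ∉ K) = A \ K := by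
      ext i
      rw [Finset.mem_filter, Finset.mem_sdiff]
    rw [this, Finset.card_sdiff_of_subset hK1, hA, hK2]
    omega
  rw [c2, c3] at hs2
  rw [← hF1, ← hF2, ← hF3, ← hc]
  push_cast at hs2
  linarith

/-- the zero `2k`-subsets -/
theorem RFZ_count {ι : Type} [DecidableEq ι] (C : Finset ι) (x : ι → ℝ) (k T : ℕ) (hT : 1 ≤ T)
    (hC : C.card = 2 * k + T) (hx : Set.InjOn x C) (hc : ∑ i ∈ C, x i = 0) :
    (2 * k + 1) * ((C.powersetCard (2 * k)).filter (fun U => ∑ i ∈ U, x i = 0)).card ≤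
      C.card.choose (2 * k) := by
  have h1 := ZE2_inj C x T hx
  rw [EX2_comp C (2 * k) T hC (fun K => ∑ i ∈ K, x i = 0)] at h1
  have h2 : (C.powersetCard (2 * k)).filter (fun B => ∑ i ∈ C \ B, x i = 0) =
      (C.powersetCard (2 * k)).filter (fun U => ∑ i ∈ U, x i = 0) := by
    apply filter_congr
    intro U hU
    have sD : ∑ i ∈ C \ U, x i + ∑ i ∈ U, x i = ∑ i ∈ C, x i :=
      sum_sdiff (mem_powersetCard.1 hU).1
    rw [hc] at sD
    constructor
    · intro h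
      linarith
    · intro h
      linarith
  rw [h2] at h1
  obtain ⟨z, hz⟩ : ∃ z, z = ((C.powersetCard (2 * k)).filter
    (fun U => ∑ i ∈ U, x i = 0)).card := ⟨_, rfl⟩
  rw [← hz] at h1 ⊢
  have h4 : (2 * k + 1) * C.card.choose (T - 1) = T * C.card.choose T := by
    obtain ⟨j, hj⟩ : ∃ j, T = j + 1 := ⟨T - 1, by omega⟩
    have h := Nat.choose_succ_right_eq C.card j
    have e1 : C.card - j = 2 * k + 1 := by omega
    rw [e1, ← hj] at h
    have e2 : T - 1 = j := by omega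
    rw [e2]
    rw [mul_comm (2 * k + 1), ← h, mul_comm]
  have h6 : C.card.choose (2 * k) = C.card.choose T := by
    rw [hC, Nat.choose_symm_add]
  rw [h6]
  apply Nat.le_of_mul_le_mul_left _ (show 0 < T by omega)
  calc T * ((2 * k + 1) * z) = (2 * k + 1) * (T * z) := by ring
    _ ≤ (2 * k + 1) * C.card.choose (T - 1) := Nat.mul_le_mul_left _ h1
    _ = T * C.card.choose T := h4

/-- pairs with total zero and a negative second sum -/
noncomputable def RFZ_Z {ι : Type} [DecidableEq ι] (C : Finset ι) (x : ι → ℝ) (k : ℕ) : ℕ :=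
  ((MP_9999b5_mr.prs C k).filter (fun p => ∑ i ∈ p.2, x i < 0 ∧
    ∑ i ∈ p.1, x i + ∑ i ∈ p.2, x i = 0)).card

theorem RFZ_Zle (hPAI : MP_9999b5_mr.Stmt_PAI) (hPAC : MP_9999b5_mr.Stmt_PAC) {ι : Type}
    [DecidableEq ι] (C : Finset ι) (x : ι → ℝ) (k T : ℕ) (hT : 1 ≤ T)
    (hC : C.card = 2 * k + T) (hx : Set.InjOn x C) (hc : ∑ i ∈ C, x i = 0) :
    (2 * k + 1) * (2 * RFZ_Z C x k) ≤ (MP_9999b5_mr.prs C k).card := by
  have h1 : RFZ_Z C x k = ((MP_9999b5_mr.prs C k).filter (fun p => ∑ i ∈ p.1, x i < 0 ∧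
      ∑ i ∈ p.1, x i + ∑ i ∈ p.2, x i = 0)).card := by
    unfold RFZ_Z
    refine card_nbij' Prod.swap Prod.swap ?_ ?_ ?_ ?_
    · intro p hp
      obtain ⟨h1, h2, h3⟩ := mem_filter.1 (mem_coe.1 hp)
      obtain ⟨a1, a2, a3, a4, a5⟩ := EXG_prs.1 h1
      refine mem_coe.2 (mem_filter.2 ⟨EXG_prs.2 ⟨a3, a4, a1, a2, a5.symm⟩, h2, ?_⟩)
      rw [add_comm]
      exact h3
    · intro p hp
      obtain ⟨h1, h2, h3⟩ := mem_filter.1 (mem_coe.1 hp)
      obtain ⟨a1, a2, a3, a4, a5⟩ := EXG_prs.1 h1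
      refine mem_coe.2 (mem_filter.2 ⟨EXG_prs.2 ⟨a3, a4, a1, a2, a5.symm⟩, h2, ?_⟩)
      rw [add_comm]
      exact h3
    · intro p _
      exact Prod.swap_swap p
    · intro p _
      exact Prod.swap_swap p
  have h2 : 2 * RFZ_Z C x k ≤ ((MP_9999b5_mr.prs C k).filter
      (fun p => ∑ i ∈ p.1, x i + ∑ i ∈ p.2, x i = 0)).card := by
    rw [two_mul]
    nth_rewrite 2 [h1]
    unfold RFZ_Z
    rw [← card_union_of_disjoint]
    · apply card_le_card
      intro p hp
      rcases mem_union.1 hp with h | h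
      · exact mem_filter.2 ⟨(mem_filter.1 h).1, (mem_filter.1 h).2.2⟩
      · exact mem_filter.2 ⟨(mem_filter.1 h).1, (mem_filter.1 h).2.2⟩
    · rw [disjoint_filter]
      rintro p _ ⟨h1, h2⟩ ⟨h3, _⟩
      linarith
  have h3 : ((MP_9999b5_mr.prs C k).filter
      (fun p => ∑ i ∈ p.1, x i + ∑ i ∈ p.2, x i = 0)).card =
      (2 * k).choose k *
        ((C.powersetCard (2 * k)).filter (fun U => ∑ i ∈ U, x i = 0)).card := by
    rw [card_filter, hPAI ι C k (fun A B => if ∑ i ∈ A, x i + ∑ i ∈ B, x i = 0 then 1 else 0),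
      card_filter, mul_sum]
    refine sum_congr rfl fun U hU => ?_
    have a1 : ∀ B ∈ U.powersetCard k,
        (if ∑ i ∈ B, x i + ∑ i ∈ U \ B, x i = 0 then 1 else 0) =
        if ∑ i ∈ U, x i = 0 then 1 else 0 := by
      intro B hB
      have sD : ∑ i ∈ U \ B, x i + ∑ i ∈ B, x i = ∑ i ∈ U, x i :=
        sum_sdiff (mem_powersetCard.1 hB).1
      rw [add_comm, sD]
    rw [sum_congr rfl a1, sum_const, card_powersetCard, (mem_powersetCard.1 hU).2, smul_eq_mul]
  have h4 := RFZ_count C x k T hT hC hx hc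
  rw [(hPAC ι C x k).1]
  calc (2 * k + 1) * (2 * RFZ_Z C x k)
      ≤ (2 * k + 1) * ((2 * k).choose k *
        ((C.powersetCard (2 * k)).filter (fun U => ∑ i ∈ U, x i = 0)).card) :=
        Nat.mul_le_mul_left _ (h2.trans (le_of_eq h3))
    _ = (2 * k).choose k * ((2 * k + 1) *
        ((C.powersetCard (2 * k)).filter (fun U => ∑ i ∈ U, x i = 0)).card) := by ring
    _ ≤ (2 * k).choose k * C.card.choose (2 * k) := Nat.mul_le_mul_left _ h4

/-- (R) for `x(C) = 0`, `x` injective, with the loss term. -/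
theorem RFZ_zero (hPAI : MP_9999b5_mr.Stmt_PAI) (hPAC : MP_9999b5_mr.Stmt_PAC)
    (k T : ℕ) (φ : ℝ) (hk : 1 ≤ k) (hT : 1 ≤ T)
    (hW : Pool.Agent.Work.MaxSums.W T (k + T) φ) {ι : Type}
    [DecidableEq ι] (C : Finset ι) (x : ι → ℝ) (hC : C.card = 2 * k + T)
    (hx : Set.InjOn x C) (hc : ∑ i ∈ C, x i = 0) :
    (k + T - 1 : ℝ) * (2 * k + 1) * (φ * (k + T) * (((MP_9999b5_mr.prs C k).card : ℝ) +
      (MP_9999b5_mr.bad C x k : ℝ) - (pp C x k : ℝ))) ≤
    (k + T - 1 : ℝ) * (2 * k + 1) * ((k + T) * (((MP_9999b5_mr.prs C k).card : ℝ) -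
      (MP_9999b5_mr.hvy C x k : ℝ) - (pp C x k : ℝ)) +
      T * ((MP_9999b5_mr.hvy C x k : ℝ) - (MP_9999b5_mr.bad C x k : ℝ))) +
    k * T * ((MP_9999b5_mr.prs C k).card : ℝ) := by
  have hk0 : (1 : ℝ) ≤ k := by exact_mod_cast hk
  have hT0 : (1 : ℝ) ≤ T := by exact_mod_cast hT
  have hm : (0 : ℝ) < k + T - 1 := by linarith
  have h1 := RFW_sum k T φ C x hC (fun B => if ∑ i ∈ B, x i < 0 then
      k * T / (k + T - 1) *
        ((((C \ B).powersetCard T).filter (fun K => ∑ i ∈ K, x i = 0)).card : ℝ) else 0) (by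
    intro B hB hB0
    obtain ⟨hB1, hB2⟩ := mem_powersetCard.1 hB
    have hA : (C \ B).card = k + T := by
      rw [card_sdiff_of_subset hB1]
      omega
    have sC : ∑ i ∈ C \ B, x i + ∑ i ∈ B, x i = ∑ i ∈ C, x i := sum_sdiff hB1
    have hxA : Set.InjOn x (C \ B : Finset ι) := hx.mono (fun i hi => (mem_sdiff.1 hi).1)
    rw [hc] at sC ⊢
    by_cases hB3 : ∑ i ∈ B, x i < 0
    · rw [if_pos hB3]
      have h2 := RFZ_A k T φ hk hT hW (C \ B) x hA hxA (by linarith)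
      have h3 : k * T / (k + T - 1) *
        ((((C \ B).powersetCard T).filter (fun K => ∑ i ∈ K, x i = 0)).card : ℝ) =
        (k * T * ((((C \ B).powersetCard T).filter
          (fun K => ∑ i ∈ K, x i = 0)).card : ℝ)) / (k + T - 1) := by ring
      rw [h3, ← sub_le_iff_le_add', le_div_iff₀ hm]
      linarith
    · rw [if_neg hB3, add_zero]
      have hs : ∑ i ∈ C \ B, x i = 0 := by linarith
      have h2 := hW ι (C \ B) (fun i => -x i) hA (fun i hi j hj h => hxA hi hj (by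
        simp only at h
        linarith)) (by rw [sum_neg_distrib, hs]; simp)
      have h3 : Pool.Agent.Work.MaxSums.pos (fun i => -x i) (C \ B) T =
          (((C \ B).powersetCard T).filter (fun K => ∑ i ∈ K, x i < 0)).card := by
        unfold Pool.Agent.Work.MaxSums.pos
        congr 1
        apply filter_congr
        intro K _
        rw [sum_neg_distrib]
        exact neg_pos
      rw [h3] at h2
      have h4 := mul_le_mul_of_nonneg_left h2 (by positivity : (0 : ℝ) ≤ k + T)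
      have h5 : (0 : ℝ) ≤ T * ((((C \ B).powersetCard T).filter (fun K => 0 ≤ ∑ i ∈ K, x i ∧
          ∑ i ∈ K, x i < ∑ i ∈ C \ B, x i)).card : ℝ) := by positivity
      linarith)
  have h2 : ∑ B ∈ (C.powersetCard k).filter (fun B => ∑ i ∈ B, x i ≤ 0),
      (if ∑ i ∈ B, x i < 0 then k * T / (k + T - 1) *
        ((((C \ B).powersetCard T).filter (fun K => ∑ i ∈ K, x i = 0)).card : ℝ) else 0) =
      k * T / (k + T - 1) * (RFZ_Z C x k : ℝ) := by
    have hZ : (RFZ_Z C x k : ℝ) = ∑ B ∈ C.powersetCard k,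
      ((((C \ B).powersetCard k).filter (fun A => ∑ i ∈ B, x i < 0 ∧
        ∑ i ∈ A, x i + ∑ i ∈ B, x i = 0)).card : ℝ) := by
      unfold RFZ_Z
      rw [EX2_fib C k (fun A B => ∑ i ∈ B, x i < 0 ∧
        ∑ i ∈ A, x i + ∑ i ∈ B, x i = 0), Nat.cast_sum]
    rw [hZ, mul_sum, sum_filter]
    refine sum_congr rfl fun B hB => ?_
    obtain ⟨hB1, hB2⟩ := mem_powersetCard.1 hB
    have hA : (C \ B).card = k + T := by
      rw [card_sdiff_of_subset hB1]
      omega
    have sC : ∑ i ∈ C \ B, x i + ∑ i ∈ B, x i = ∑ i ∈ C, x i := sum_sdiff hB1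
    by_cases hB3 : ∑ i ∈ B, x i < 0
    · rw [if_pos hB3.le, if_pos hB3, EX2_comp (C \ B) k T hA (fun K => ∑ i ∈ K, x i = 0)]
      congr 3
      apply filter_congr
      intro A hA'
      have sD : ∑ i ∈ (C \ B) \ A, x i + ∑ i ∈ A, x i = ∑ i ∈ C \ B, x i :=
        sum_sdiff (mem_powersetCard.1 hA').1
      constructor
      · intro h
        exact ⟨hB3, by linarith⟩
      · intro h
        linarith [h.2]
    · have e3 : ((C \ B).powersetCard k).filter (fun A => ∑ i ∈ B, x i < 0 ∧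
        ∑ i ∈ A, x i + ∑ i ∈ B, x i = 0) = ∅ :=
        filter_false_of_mem (fun _ _ h => hB3 h.1)
      rw [if_neg hB3, e3]
      simp
  rw [h2] at h1
  have h3 : 2 * (EX2_L C x k : ℝ) + (pp C x k : ℝ) =
      ((MP_9999b5_mr.prs C k).card : ℝ) + (MP_9999b5_mr.bad C x k : ℝ) := by
    exact_mod_cast EX2_two C x k
  have h4 : 2 * ((EXG_N C x k).card : ℝ) + (pp C x k : ℝ) + (MP_9999b5_mr.hvy C x k : ℝ) =
      ((MP_9999b5_mr.prs C k).card : ℝ) := by
    exact_mod_cast EXG_count C x k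
  have h5 : 2 * (RFW_M C x k : ℝ) + (MP_9999b5_mr.bad C x k : ℝ) =
      (MP_9999b5_mr.hvy C x k : ℝ) := by
    exact_mod_cast RFW_two C x k
  have h6 : (2 * k + 1) * (2 * (RFZ_Z C x k : ℝ)) ≤ ((MP_9999b5_mr.prs C k).card : ℝ) := by
    exact_mod_cast RFZ_Zle hPAI hPAC C x k T hT hC hx hc
  have e1 : ((MP_9999b5_mr.prs C k).card : ℝ) + (MP_9999b5_mr.bad C x k : ℝ) -
      (pp C x k : ℝ) = 2 * (EX2_L C x k : ℝ) := by linarith
  have e2 : ((MP_9999b5_mr.prs C k).card : ℝ) - (MP_9999b5_mr.hvy C x k : ℝ) -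
      (pp C x k : ℝ) = 2 * ((EXG_N C x k).card : ℝ) := by linarith
  have e3 : (MP_9999b5_mr.hvy C x k : ℝ) - (MP_9999b5_mr.bad C x k : ℝ) =
      2 * (RFW_M C x k : ℝ) := by linarith
  rw [e1, e2, e3]
  have h7 := mul_le_mul_of_nonneg_left h6 (by positivity : (0 : ℝ) ≤ k * T)
  have h8 := mul_le_mul_of_nonneg_left h1 hm.le
  have h9 : (k + T - 1 : ℝ) * (k * T / (k + T - 1) * (RFZ_Z C x k : ℝ)) =
      k * T * (RFZ_Z C x k : ℝ) := by
    field_simp
  rw [mul_add (k + T - 1 : ℝ) ((k + T) * ((EXG_N C x k).card : ℝ) + T * (RFW_M C x k : ℝ)),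
    h9] at h8
  have h10 := mul_le_mul_of_nonneg_left h8 (by positivity : (0 : ℝ) ≤ 2 * (2 * (k : ℝ) + 1))
  linarith

end Pool.Agent.Work.MP_9999b5_sp
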